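import Pool.Agent.Q213.FD.Paley
import Pool.Agent.H735CB.Final

set_option autoImplicit false

/-! One integer parameter with a few changed digits for difference sums modulo nearly all primes. -/

namespace Pool.Agent.Q213.FD

open Finset

open Classical in
/-- densities for one parameter -/
theorem dens_one (Bad : ℕ → (Fin 1 → ℕ) → Prop) (p : ℕ) (hp : p.Prime) (T : Set (ZMod p))
    (hBad : ∀ m, Bad p m → (m 0 : ZMod p) ∈ T) : dens Bad p ≤ (T.ncard : ℝ) / p := by
  haveI : Fact p.Prime := ⟨hp⟩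
  have hp0 : (0 : ℝ) < p := by exact_mod_cast hp.pos
  unfold dens
  rw [pow_one]
  refine div_le_div_of_nonneg_right (Nat.cast_le.2 ?_) hp0.le
  rw [← card_image_of_injOn (f := fun m : Fin 1 → ℕ => (m 0 : ZMod p)) (s :=
    (Fintype.piFinset (fun _ : Fin 1 => range p)).filter (fun m => Bad p m)) ?_,
    ← Set.ncard_coe_finset]
  · refine Set.ncard_le_ncard ?_ (Set.toFinite _)
    intro a ha
    rw [mem_coe, mem_image] at ha
    obtain ⟨m, hm, rfl⟩ := ha
    exact hBad m (mem_filter.1 hm).2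
  · intro m hm m' hm' h
    have h1 := (mem_filter.1 hm).1
    have h2 := (mem_filter.1 hm').1
    rw [Fintype.mem_piFinset] at h1 h2
    simp only at h
    rw [ZMod.natCast_eq_natCast_iff] at h
    funext i
    rw [Fin.fin_one_eq_zero i]
    exact Nat.ModEq.eq_of_lt_of_lt h (mem_range.1 (h1 0)) (mem_range.1 (h2 0))

/-- the sum of densities `C p ^ (- s)` -/
theorem sum_dens_pow (ε : ℝ) (hε : 0 < ε) (s C : ℝ) (hs : s ≤ 1) (hC : 0 ≤ C) (p₀ : ℕ) :
    ∃ x₀ : ℕ, ∀ x : ℕ, x₀ ≤ x → ∀ d : ℕ,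
    ∀ Bad : ℕ → (Fin d → ℕ) → Prop,
    (∀ p : ℕ, p.Prime → p₀ ≤ p → dens Bad p ≤ C * (p : ℝ) ^ (-s)) →
    ∑ p ∈ primes x, dens Bad p ≤ (x : ℝ) ^ (1 - s + ε) := by
  have hev : ∀ᶠ x : ℕ in Filter.atTop, (p₀ : ℝ) + C * (1 + Real.log x) ≤ (x : ℝ) ^ ε := by
    have h1 : Filter.Tendsto (fun x : ℝ => x ^ (ε / 2)) Filter.atTop Filter.atTop :=
      tendsto_rpow_atTop (by positivity)
    have h2 := (h1.comp tendsto_natCast_atTop_atTop).eventually
      (Filter.eventually_ge_atTop ((p₀ : ℝ) + C + C * (2 / ε)))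
    filter_upwards [h2, Filter.eventually_ge_atTop 1] with x hx hx1
    have hx1' : (1 : ℝ) ≤ x := by exact_mod_cast hx1
    have hx0 : (0 : ℝ) < x := by linarith
    have hlog : Real.log x ≤ (x : ℝ) ^ (ε / 2) / (ε / 2) := Real.log_le_rpow_div hx0.le (by positivity)
    have h3 : (x : ℝ) ^ ε = (x : ℝ) ^ (ε / 2) * (x : ℝ) ^ (ε / 2) := by
      rw [← Real.rpow_add hx0]
      congr 1
      ring
    have h4 : (p₀ : ℝ) + C + C * (2 / ε) ≤ (x : ℝ) ^ (ε / 2) := hx
    have h5 : (1 : ℝ) ≤ (x : ℝ) ^ (ε / 2) := Real.one_le_rpow hx1' (by positivity)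
    have h6 : (x : ℝ) ^ (ε / 2) / (ε / 2) = 2 / ε * (x : ℝ) ^ (ε / 2) := by
      field_simp
    rw [h3]
    rw [h6] at hlog
    have h9 : ((p₀ : ℝ) + C + C * (2 / ε)) * (x : ℝ) ^ (ε / 2) ≤
        (x : ℝ) ^ (ε / 2) * (x : ℝ) ^ (ε / 2) := mul_le_mul_of_nonneg_right h4 (by linarith)
    have h10 : (0 : ℝ) ≤ (p₀ : ℝ) := Nat.cast_nonneg p₀
    have h11 := mul_le_mul_of_nonneg_left hlog hC
    have h12 : (p₀ : ℝ) ≤ p₀ * (x : ℝ) ^ (ε / 2) := le_mul_of_one_le_right h10 h5
    have h13 : C ≤ C * (x : ℝ) ^ (ε / 2) := le_mul_of_one_le_right hC h5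
    nlinarith
  obtain ⟨x₀, hx₀⟩ := Filter.eventually_atTop.1 hev
  refine ⟨x₀ + 1, fun x hx d Bad hBad => ?_⟩
  have hx1 : (1 : ℝ) ≤ x := by exact_mod_cast (by omega : 1 ≤ x)
  have hx0 : (0 : ℝ) < x := by linarith
  have hxs : (1 : ℝ) ≤ (x : ℝ) ^ (1 - s) := Real.one_le_rpow hx1 (by linarith)
  have h1 : ∀ p ∈ primes x, dens Bad p ≤
      (x : ℝ) ^ (1 - s) * ((if p < p₀ then 1 else 0) + C * (1 / (p : ℝ))) := by
    intro p hp
    unfold primes at hp
    rw [mem_filter, mem_range] at hp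
    have hp0 : (0 : ℝ) < p := by exact_mod_cast hp.2.pos
    have h3 : (0 : ℝ) ≤ C * (1 / (p : ℝ)) := by positivity
    by_cases h : p < p₀
    · rw [if_pos h]
      have h2 := dens_le_one d Bad p hp.2.pos
      nlinarith
    · rw [if_neg h, zero_add]
      refine (hBad p hp.2 (by omega)).trans ?_
      have h4 : (p : ℝ) ^ (-s) ≤ (x : ℝ) ^ (1 - s) * (1 / (p : ℝ)) := by
        have h5 : (p : ℝ) ^ (-s) = (p : ℝ) ^ (1 - s) * (1 / (p : ℝ)) := by
          rw [one_div, ← Real.rpow_neg_one, ← Real.rpow_add hp0]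
          congr 1
          ring
        rw [h5]
        refine mul_le_mul_of_nonneg_right (Real.rpow_le_rpow hp0.le ?_ (by linarith)) (by positivity)
        exact_mod_cast (by omega : p ≤ x)
      calc C * (p : ℝ) ^ (-s) ≤ C * ((x : ℝ) ^ (1 - s) * (1 / (p : ℝ))) :=
            mul_le_mul_of_nonneg_left h4 hC
        _ = _ := by ring
  refine (sum_le_sum h1).trans ?_
  rw [← mul_sum, sum_add_distrib, ← mul_sum]
  have h2 : ∑ p ∈ primes x, (if p < p₀ then (1 : ℝ) else 0) ≤ p₀ := by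
    rw [← sum_filter, sum_const, nsmul_eq_mul, mul_one]
    have : ((primes x).filter (fun p => p < p₀)).card ≤ p₀ := by
      refine (card_le_card (t := range p₀) ?_).trans (le_of_eq (card_range p₀))
      intro p hp
      rw [mem_filter] at hp
      exact mem_range.2 hp.2
    exact_mod_cast this
  have h3 := sum_inv_le x (by omega)
  have h4 := hx₀ x (by omega)
  have h5 : (x : ℝ) ^ (1 - s + ε) = (x : ℝ) ^ (1 - s) * (x : ℝ) ^ ε := Real.rpow_add hx0 _ _
  rw [h5]
  refine mul_le_mul_of_nonneg_left (le_trans ?_ h4) (by linarith)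
  have h6 := mul_le_mul_of_nonneg_left h3 hC
  linarith

/-- few parameters have many partners -/
theorem pairs_markov {α β : Type} [Fintype α] [Fintype β] (R : α → β → Prop) (M : ℝ) :
    ({t : α | M < ({χ : β | R t χ}.ncard : ℝ)}.ncard : ℝ) * M ≤
      ({q : α × β | R q.1 q.2}.ncard : ℝ) := by
  classical
  have h1 : ({q : α × β | R q.1 q.2}.ncard : ℝ) = ∑ t : α, ({χ : β | R t χ}.ncard : ℝ) := by
    rw [Set.ncard_eq_toFinset_card']
    have h2 : ∀ t : α, {χ : β | R t χ}.ncard = (univ.filter (fun χ => R t χ)).card := by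
      intro t
      rw [Set.ncard_eq_toFinset_card']
      congr 1
      ext χ
      simp
    have h3 : ({q : α × β | R q.1 q.2}.toFinset).card =
        ∑ t : α, (univ.filter (fun χ => R t χ)).card := by
      have h4 : {q : α × β | R q.1 q.2}.toFinset = univ.filter (fun q : α × β => R q.1 q.2) := by
        ext q
        simp
      rw [h4, card_filter, Fintype.sum_prod_type]
      exact sum_congr rfl fun t _ => (card_filter _ _).symm
    rw [h3]
    push_cast
    exact sum_congr rfl fun t _ => by rw [h2]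
  rw [h1]
  have h5 : ({t : α | M < ({χ : β | R t χ}.ncard : ℝ)}.ncard : ℝ) =
      ((univ.filter (fun t : α => M < ({χ : β | R t χ}.ncard : ℝ))).card : ℝ) := by
    rw [Set.ncard_eq_toFinset_card']
    congr 2
    ext t
    simp
  rw [h5, ← nsmul_eq_mul, ← sum_const]
  refine (sum_le_sum (fun t ht => (mem_filter.1 ht).2.le)).trans ?_
  exact sum_le_sum_of_subset_of_nonneg (filter_subset _ _) fun t _ _ => Nat.cast_nonneg _

end Pool.Agent.Q213.FD
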