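import Pool.Agent.TH894.NE5

set_option autoImplicit false

/-! Bad primes of integer vectors with a few changed digits. -/

namespace Pool.Agent.Q213.FD

open Finset
open Pool.Agent.TH894.NE (mean Per)

/-- the primes up to `x` -/
noncomputable def primes (x : ℕ) : Finset ℕ := (range (x + 1)).filter (fun p => p.Prime)

open Classical in
/-- the density of the bad residues -/
noncomputable def dens {d : ℕ} (Bad : ℕ → (Fin d → ℕ) → Prop) (p : ℕ) : ℝ :=
  (((Fintype.piFinset (fun _ : Fin d => range p)).filter (fun m => Bad p m)).card : ℝ) / (p : ℝ) ^ d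

open Classical in
/-- the law -/
theorem law (b d : ℕ) (hb : 2 ≤ b) (hd : 1 ≤ d) (A A₂ ε : ℝ) (hε : 0 < ε) :
    ∃ c : ℝ, 0 < c ∧ ∃ y₀ : ℕ, ∀ (K r : Fin d → ℕ) (y : ℕ), (∀ i, 2 * r i ≤ K i) → y₀ ≤ y →
    ∀ N : Fin d → ℕ, (∀ i, N i < b ^ K i) →
    ∀ f : Fin d → ℕ → ℕ, (∀ i j, f i j < b ∧ f i j ≠ N i / b ^ j % b) →
    ∀ (κ : Type) (Λ : ℕ → Finset κ), (∀ x, y ≤ x → ((Λ x).card : ℝ) ≤ (x : ℝ) ^ A₂) →
    ∀ Bad : κ → ℕ → (Fin d → ℕ) → Prop,
    (∀ l p m, Bad l p m ↔ Bad l p (fun i => m i % p)) →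
    ∀ θ : ℝ, 0 ≤ θ → (∀ x, y ≤ x → ∀ l ∈ Λ x, ∑ p ∈ primes x, dens (Bad l) p ≤ (x : ℝ) ^ θ) →
    ((((Fintype.piFinset (fun i => powersetCard (r i) (range (K i)))).filter (fun S =>
      ¬ ∀ x : ℕ, y ≤ x → (∀ i, (x : ℝ) ≤ Real.exp (c * r i)) → ∀ l ∈ Λ x,
        ((((primes x).filter (fun p => Bad l p
          (fun i => Pool.Agent.TH894.SM.change b (K i) (N i) (f i) (S i)))).card : ℕ) : ℝ) ≤
          (x : ℝ) ^ (θ + ε))).card : ℕ) : ℝ) ≤ (y : ℝ) ^ (-A) * ∏ i, ((K i).choose (r i) : ℝ) := by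
  obtain ⟨c, hc, x₁, h⟩ := Pool.Agent.TH894.NE.law3 b d hb hd (ε / 2) A |A₂| (by positivity)
  have hev : ∀ᶠ x : ℕ in Filter.atTop, (2 : ℝ) ≤ (x : ℝ) ^ (ε / 2) := by
    have h1 : Filter.Tendsto (fun x : ℝ => x ^ (ε / 2)) Filter.atTop Filter.atTop :=
      tendsto_rpow_atTop (by positivity)
    exact (h1.comp tendsto_natCast_atTop_atTop).eventually (Filter.eventually_ge_atTop _)
  obtain ⟨x₂, hx₂⟩ := Filter.eventually_atTop.1 hev
  refine ⟨c, hc, x₁ + x₂ + 1, fun K r y hrK hy N hN f hf κ Λ hΛ Bad hBad θ hθ hdens => ?_⟩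
  have hmean : ∀ l p, mean d p (fun m => if Bad l p m then (1 : ℝ) else 0) = dens (Bad l) p := by
    intro l p
    unfold mean dens Pool.Agent.TH894.NE.box
    rw [← sum_filter, sum_const, nsmul_eq_mul, mul_one]
    ring
  have hmean2 : ∀ l p, mean d p (fun m => (if Bad l p m then (1 : ℝ) else 0) ^ 2) =
      dens (Bad l) p := by
    intro l p
    rw [← hmean]
    congr 1
    funext m
    split_ifs <;> norm_num
  refine h r K y hrK (by omega) N hN f hf κ (fun x => if x < y then ∅ else Λ x) ?_ ℕ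
    (fun x _ => primes x) (fun _ p => p) ?_ ?_ (fun l p m => if Bad l p m then 1 else 0) ?_ ?_ _
    (filter_subset _ _) ?_
  · intro x hx
    show (((if x < y then ∅ else Λ x) : Finset κ).card : ℝ) ≤ _
    split_ifs with hxy
    · rw [card_empty, Nat.cast_zero]
      positivity
    · have hx1 : (1 : ℝ) ≤ x := by exact_mod_cast (by omega : 1 ≤ x)
      exact (hΛ x (by omega)).trans (Real.rpow_le_rpow_of_exponent_le hx1 (le_abs_self _))
  · intro x l _ p hp
    unfold primes at hp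
    rw [mem_filter, mem_range] at hp
    exact ⟨hp.2.one_lt.le, by omega⟩
  · intro x l _ p hp p' hp' hne
    unfold primes at hp hp'
    rw [mem_filter] at hp hp'
    exact (Nat.coprime_primes hp.2 hp'.2).2 hne
  · intro x l _ p _ m
    show (if Bad l p m then (1 : ℝ) else 0) = if Bad l p (fun i => m i % p) then 1 else 0
    simp only [← hBad l p m]
  · intro x l _ p _ m
    show |(if Bad l p m then (1 : ℝ) else 0)| ≤ 1
    split_ifs <;> norm_num
  · intro S hS
    rw [mem_filter] at hS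
    obtain ⟨-, hS⟩ := hS
    push Not at hS
    obtain ⟨x, hyx, hxr, l, hl, hbad⟩ := hS
    have hx0 : (0 : ℝ) < x := by exact_mod_cast (by omega : 0 < x)
    have hx1 : (1 : ℝ) ≤ x := by exact_mod_cast (by omega : 1 ≤ x)
    refine ⟨x, hyx, fun i => (Real.log_le_iff_le_exp hx0).2 (hxr i), l, ?_, ?_⟩
    · show l ∈ (if x < y then ∅ else Λ x : Finset κ)
      rw [if_neg (by omega)]
      exact hl
    · rw [sum_congr rfl (fun p _ => hmean2 l p), sum_congr rfl (fun p _ => hmean l p)]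
      have h1 : ∑ p ∈ primes x, (if Bad l p (fun i => Pool.Agent.TH894.SM.change b (K i) (N i)
          (f i) (S i)) then (1 : ℝ) else 0) = ((((primes x).filter (fun p => Bad l p
          (fun i => Pool.Agent.TH894.SM.change b (K i) (N i) (f i) (S i)))).card : ℕ) : ℝ) := by
        rw [← sum_filter, sum_const, nsmul_eq_mul, mul_one]
      have hμ := hdens x hyx l hl
      have hθ1 : (1 : ℝ) ≤ (x : ℝ) ^ θ := Real.one_le_rpow hx1 hθ
      have h2 : Real.sqrt (max 1 (∑ p ∈ primes x, dens (Bad l) p)) ≤ (x : ℝ) ^ θ := by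
        rw [Real.sqrt_le_left (by positivity)]
        refine (max_le hθ1 hμ).trans ?_
        nlinarith
      have h3 : (x : ℝ) ^ θ + (x : ℝ) ^ θ * (x : ℝ) ^ (ε / 2) ≤ (x : ℝ) ^ (θ + ε) := by
        have h4 := hx₂ x (by omega)
        have h5 : (x : ℝ) ^ (θ + ε) = (x : ℝ) ^ θ * ((x : ℝ) ^ (ε / 2) * (x : ℝ) ^ (ε / 2)) := by
          rw [← Real.rpow_add hx0, ← Real.rpow_add hx0]
          congr 1
          ring
        rw [h5]
        nlinarith [mul_nonneg (by linarith : (0 : ℝ) ≤ (x : ℝ) ^ θ)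
          (by linarith : (0 : ℝ) ≤ (x : ℝ) ^ (ε / 2) - 2), sq_nonneg ((x : ℝ) ^ (ε / 2) - 2),
          mul_nonneg (mul_nonneg (by linarith : (0 : ℝ) ≤ (x : ℝ) ^ θ)
          (by linarith : (0 : ℝ) ≤ (x : ℝ) ^ (ε / 2) - 2)) (by linarith : (0 : ℝ) ≤ (x : ℝ) ^ (ε / 2))]
      have h6 : Real.sqrt (max 1 (∑ p ∈ primes x, dens (Bad l) p)) * (x : ℝ) ^ (ε / 2) ≤
          (x : ℝ) ^ θ * (x : ℝ) ^ (ε / 2) := mul_le_mul_of_nonneg_right h2 (by positivity)
      refine lt_of_lt_of_le (b := ((((primes x).filter (fun p => Bad l p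
          (fun i => Pool.Agent.TH894.SM.change b (K i) (N i) (f i) (S i)))).card : ℕ) : ℝ) -
          ∑ p ∈ primes x, dens (Bad l) p) (by linarith) ?_
      refine le_trans (le_of_eq ?_) (le_abs_self _)
      rw [← h1]

/-- sums of the densities for a density `C / p` -/
theorem sum_inv_le (x : ℕ) (hx : 1 ≤ x) : ∑ p ∈ primes x, (1 : ℝ) / p ≤ 1 + Real.log x := by
  have h1 : ∑ p ∈ primes x, (1 : ℝ) / p ≤ ∑ m ∈ Icc 1 x, (1 : ℝ) / m := by
    refine sum_le_sum_of_subset_of_nonneg ?_ fun m _ _ => by positivity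
    intro p hp
    unfold primes at hp
    rw [mem_filter, mem_range] at hp
    rw [mem_Icc]
    exact ⟨hp.2.one_lt.le, by omega⟩
  refine h1.trans ?_
  have h2 := harmonic_le_one_add_log x
  rw [harmonic_eq_sum_Icc] at h2
  push_cast at h2
  simpa [one_div] using h2

end Pool.Agent.Q213.FD
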