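import Pool.Agent.Q213.FD.Law

set_option autoImplicit false

/-! Bad primes of integers with a few changed digits. -/

namespace Pool.Agent.Q213.FD

open Finset

open Classical in
/-- the law for one integer -/
theorem law_one (b : ℕ) (hb : 2 ≤ b) (A A₂ ε : ℝ) (hε : 0 < ε) :
    ∃ c : ℝ, 0 < c ∧ ∃ y₀ : ℕ, ∀ K r y : ℕ, 2 * r ≤ K → y₀ ≤ y →
    ∀ N : ℕ, N < b ^ K → ∀ f : ℕ → ℕ, (∀ j, f j < b ∧ f j ≠ N / b ^ j % b) →
    ∀ (κ : Type) (Λ : ℕ → Finset κ), (∀ x, y ≤ x → ((Λ x).card : ℝ) ≤ (x : ℝ) ^ A₂) →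
    ∀ Bad : κ → ℕ → ℕ → Prop, (∀ l p m, Bad l p m ↔ Bad l p (m % p)) →
    ∀ θ : ℝ, 0 ≤ θ → (∀ x, y ≤ x → ∀ l ∈ Λ x,
      ∑ p ∈ primes x, dens (fun p (m : Fin 1 → ℕ) => Bad l p (m 0)) p ≤ (x : ℝ) ^ θ) →
    ((((powersetCard r (range K)).filter (fun S =>
      ¬ ∀ x : ℕ, y ≤ x → (x : ℝ) ≤ Real.exp (c * r) → ∀ l ∈ Λ x,
        ((((primes x).filter (fun p => Bad l p
          (Pool.Agent.TH894.SM.change b K N f S))).card : ℕ) : ℝ) ≤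
          (x : ℝ) ^ (θ + ε))).card : ℕ) : ℝ) ≤ (y : ℝ) ^ (-A) * (K.choose r : ℝ) := by
  obtain ⟨c, hc, y₀, h⟩ := law b 1 hb le_rfl A A₂ ε hε
  refine ⟨c, hc, y₀, fun K r y hrK hy N hN f hf κ Λ hΛ Bad hBad θ hθ hd => ?_⟩
  have h1 := h (fun _ => K) (fun _ => r) y (fun _ => hrK) hy (fun _ => N) (fun _ => hN)
    (fun _ => f) (fun _ => hf) κ Λ hΛ (fun l p m => Bad l p (m 0))
    (fun l p m => hBad l p (m 0)) θ hθ hd
  rw [Fin.prod_univ_one] at h1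
  refine le_trans (Nat.cast_le.2 ?_) h1
  rw [← card_image_of_injective (f := fun (S : Finset ℕ) => (fun _ : Fin 1 => S))
    _ (fun S T hST => congrFun hST 0)]
  refine card_le_card ?_
  intro S hS
  rw [mem_image] at hS
  obtain ⟨T, hT, rfl⟩ := hS
  have hT' := mem_filter.1 hT
  refine mem_filter.2 ⟨?_, fun hcon => hT'.2 fun x hx hxr l hl => hcon x hx (fun _ => hxr) l hl⟩
  rw [Fintype.mem_piFinset]
  exact fun _ => hT'.1

end Pool.Agent.Q213.FD
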