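import Pool.Agent.Q213.FD.Law
import Pool.Agent.Y881.PG.Sets

set_option autoImplicit false

/-! Affine and fractional linear maps with integer coefficients with a few changed digits. -/

namespace Pool.Agent.Q213.FD

open Finset

open Classical in
/-- densities at most `2 / p` -/
theorem dens_le (d : ℕ) (i₀ : Fin d) (Bad : ℕ → (Fin d → ℕ) → Prop) (p : ℕ) (hp : p.Prime)
    {α : Type} (φ : (Fin d → ℕ) → α)
    (hφ : ∀ m ∈ Fintype.piFinset (fun _ : Fin d => range p),
      ∀ m' ∈ Fintype.piFinset (fun _ : Fin d => range p), φ m = φ m' → m = m')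
    (T : Set α) (hT : T.Finite)
    (hTc : (T.ncard : ℝ) ≤ (p : ℝ) ^ (d - 1))
    (hBad : ∀ m, Bad p m → p ∣ m i₀ ∨ φ m ∈ T) : dens Bad p ≤ 2 / p := by
  have hp0 : (0 : ℝ) < p := by exact_mod_cast hp.pos
  have hd : 1 ≤ d := by
    have := i₀.2
    omega
  unfold dens
  obtain ⟨B, hB⟩ : ∃ B : Finset (Fin d → ℕ), B = Fintype.piFinset (fun _ : Fin d => range p) :=
    ⟨_, rfl⟩
  rw [← hB] at hφ ⊢
  have h1 : (B.filter (fun m => Bad p m)).card ≤
      (B.filter (fun m => m i₀ = 0)).card + (B.filter (fun m => φ m ∈ T)).card := by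
    refine le_trans (card_le_card ?_) (card_union_le _ _)
    intro m hm
    rw [mem_filter] at hm
    rw [mem_union, mem_filter, mem_filter]
    rcases hBad m hm.2 with h2 | h2
    · refine Or.inl ⟨hm.1, ?_⟩
      have h3 := hm.1
      rw [hB, Fintype.mem_piFinset] at h3
      exact Nat.eq_zero_of_dvd_of_lt h2 (mem_range.1 (h3 i₀))
    · exact Or.inr ⟨hm.1, h2⟩
  have h2 : (B.filter (fun m => m i₀ = 0)).card ≤ p ^ (d - 1) := by
    have h3 : B.filter (fun m => m i₀ = 0) ⊆
        Fintype.piFinset (fun i : Fin d => if i = i₀ then {0} else range p) := by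
      intro m hm
      rw [mem_filter, hB, Fintype.mem_piFinset] at hm
      rw [Fintype.mem_piFinset]
      intro i
      by_cases hi : i = i₀
      · rw [if_pos hi, hi, mem_singleton]
        exact hm.2
      · rw [if_neg hi]
        exact hm.1 i
    refine (card_le_card h3).trans (le_of_eq ?_)
    rw [Fintype.card_piFinset]
    have h4 : ∀ i : Fin d, ((if i = i₀ then {0} else range p : Finset ℕ)).card =
        if i = i₀ then 1 else p := by
      intro i
      split_ifs
      · exact card_singleton 0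
      · exact card_range p
    rw [prod_congr rfl (fun i _ => h4 i), prod_ite, prod_const_one, one_mul, prod_const]
    congr 1
    rw [filter_ne' univ i₀, card_erase_of_mem (mem_univ _), card_univ, Fintype.card_fin]
  have h3 : ((B.filter (fun m => φ m ∈ T)).card : ℝ) ≤ (p : ℝ) ^ (d - 1) := by
    refine le_trans ?_ hTc
    refine Nat.cast_le.2 ?_
    rw [← card_image_of_injOn (f := φ) (s := B.filter (fun m => φ m ∈ T))
      (fun m hm m' hm' h => hφ m (mem_filter.1 hm).1 m' (mem_filter.1 hm').1 h),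
      ← Set.ncard_coe_finset]
    refine Set.ncard_le_ncard ?_ hT
    intro a ha
    rw [mem_coe, mem_image] at ha
    obtain ⟨m, hm, rfl⟩ := ha
    exact (mem_filter.1 hm).2
  rw [div_le_div_iff₀ (by positivity) hp0]
  have h4 : ((B.filter (fun m => Bad p m)).card : ℝ) ≤ 2 * (p : ℝ) ^ (d - 1) := by
    have h5 : ((B.filter (fun m => Bad p m)).card : ℝ) ≤
        ((B.filter (fun m => m i₀ = 0)).card : ℝ) + ((B.filter (fun m => φ m ∈ T)).card : ℝ) := by
      exact_mod_cast h1
    have h6 : ((B.filter (fun m => m i₀ = 0)).card : ℝ) ≤ (p : ℝ) ^ (d - 1) := by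
      exact_mod_cast h2
    linarith
  calc ((B.filter (fun m => Bad p m)).card : ℝ) * p ≤ 2 * (p : ℝ) ^ (d - 1) * p :=
        mul_le_mul_of_nonneg_right h4 hp0.le
    _ = 2 * (p : ℝ) ^ d := by
        rw [mul_assoc, ← pow_succ]
        congr 2
        omega

open Classical in
theorem dens_le_one (d : ℕ) (Bad : ℕ → (Fin d → ℕ) → Prop) (p : ℕ) (hp : 0 < p) :
    dens Bad p ≤ 1 := by
  have hp0 : (0 : ℝ) < p := by exact_mod_cast hp
  unfold dens
  rw [div_le_one (by positivity)]
  have h1 := card_filter_le (Fintype.piFinset (fun _ : Fin d => range p)) (fun m => Bad p m)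
  have h2 : (Fintype.piFinset (fun _ : Fin d => range p)).card = p ^ d := by
    rw [Fintype.card_piFinset, prod_const, card_range, card_univ, Fintype.card_fin]
  rw [h2] at h1
  exact_mod_cast h1

/-- the sum of the densities -/
theorem sum_dens (ε : ℝ) (hε : 0 < ε) (p₀ : ℕ) : ∃ x₀ : ℕ, ∀ x : ℕ, x₀ ≤ x → ∀ d : ℕ,
    ∀ Bad : ℕ → (Fin d → ℕ) → Prop, (∀ p : ℕ, p.Prime → p₀ ≤ p → dens Bad p ≤ 2 / p) →
    ∑ p ∈ primes x, dens Bad p ≤ (x : ℝ) ^ ε := by
  have hev : ∀ᶠ x : ℕ in Filter.atTop, (p₀ : ℝ) + 2 * (1 + Real.log x) ≤ (x : ℝ) ^ ε := by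
    have h1 : Filter.Tendsto (fun x : ℝ => x ^ (ε / 2)) Filter.atTop Filter.atTop :=
      tendsto_rpow_atTop (by positivity)
    have h2 := (h1.comp tendsto_natCast_atTop_atTop).eventually
      (Filter.eventually_ge_atTop ((p₀ : ℝ) + 2 + 4 / ε))
    filter_upwards [h2, Filter.eventually_ge_atTop 1] with x hx hx1
    have hx1' : (1 : ℝ) ≤ x := by exact_mod_cast hx1
    have hx0 : (0 : ℝ) < x := by linarith
    have hlog : Real.log x ≤ (x : ℝ) ^ (ε / 2) / (ε / 2) := Real.log_le_rpow_div hx0.le (by positivity)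
    have h3 : (x : ℝ) ^ ε = (x : ℝ) ^ (ε / 2) * (x : ℝ) ^ (ε / 2) := by
      rw [← Real.rpow_add hx0]
      congr 1
      ring
    have h4 : (p₀ : ℝ) + 2 + 4 / ε ≤ (x : ℝ) ^ (ε / 2) := hx
    have h5 : (1 : ℝ) ≤ (x : ℝ) ^ (ε / 2) := Real.one_le_rpow hx1' (by positivity)
    have h6 : (x : ℝ) ^ (ε / 2) / (ε / 2) = 2 / ε * (x : ℝ) ^ (ε / 2) := by
      field_simp
    rw [h3]
    rw [h6] at hlog
    have h7 : (0 : ℝ) ≤ 2 / ε := by positivity
    have h8 : 4 / ε = 2 * (2 / ε) := by ring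
    have h9 : ((p₀ : ℝ) + 2 + 4 / ε) * (x : ℝ) ^ (ε / 2) ≤ (x : ℝ) ^ (ε / 2) * (x : ℝ) ^ (ε / 2) :=
      mul_le_mul_of_nonneg_right h4 (by linarith)
    have h10 : (0 : ℝ) ≤ (p₀ : ℝ) := Nat.cast_nonneg p₀
    nlinarith
  obtain ⟨x₀, hx₀⟩ := Filter.eventually_atTop.1 hev
  refine ⟨x₀ + 1, fun x hx d Bad hBad => ?_⟩
  refine le_trans ?_ (hx₀ x (by omega))
  have h1 : ∀ p ∈ primes x, dens Bad p ≤ (if p < p₀ then 1 else 0) + 2 * (1 / (p : ℝ)) := by
    intro p hp
    unfold primes at hp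
    rw [mem_filter] at hp
    by_cases h : p < p₀
    · rw [if_pos h]
      have := dens_le_one d Bad p hp.2.pos
      have h2 : (0 : ℝ) ≤ 2 * (1 / (p : ℝ)) := by positivity
      linarith
    · rw [if_neg h]
      have := hBad p hp.2 (by omega)
      rw [zero_add, mul_one_div]
      exact this
  refine (sum_le_sum h1).trans ?_
  rw [sum_add_distrib, ← mul_sum]
  have h2 : ∑ p ∈ primes x, (if p < p₀ then (1 : ℝ) else 0) ≤ p₀ := by
    rw [← sum_filter, sum_const, nsmul_eq_mul, mul_one]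
    have : ((primes x).filter (fun p => p < p₀)).card ≤ p₀ := by
      refine (card_le_card (t := range p₀) ?_).trans (le_of_eq (card_range p₀))
      intro p hp
      rw [mem_filter] at hp
      exact mem_range.2 hp.2
    exact_mod_cast this
  have h3 := sum_inv_le x (by omega)
  linarith

end Pool.Agent.Q213.FD
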